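import Pool.Agent.W464.WLP.Defs2

/-!
# Project WLP, task T2: transfer to the statement on h-vectors
-/

set_option autoImplicit false

open MvPolynomial

namespace Pool.Agent.W749.WLP

open Pool.Agent.W464.WLP

section Basic

variable {K : Type} [Field K] {n : ℕ} {Z : Type} (P : Z → Fin (n + 1) → K)

theorem ev_apply (f : MvPolynomial (Fin (n + 1)) K) (z : Z) : ev P f z = eval (P z) f := by
  simp [ev, MvPolynomial.aeval_eq_eval]

theorem ev_mul (f g : MvPolynomial (Fin (n + 1)) K) : ev P (f * g) = ev P f * ev P g := by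
  funext z
  simp [ev_apply]

theorem mem_S {d : ℕ} {φ : Z → K} :
    φ ∈ S P d ↔ ∃ f : MvPolynomial (Fin (n + 1)) K, f.IsHomogeneous d ∧ ev P f = φ := by
  simp [S, Submodule.mem_map, mem_homogeneousSubmodule]

theorem mul_mem_S {d e : ℕ} {φ ψ : Z → K} (hφ : φ ∈ S P d) (hψ : ψ ∈ S P e) :
    φ * ψ ∈ S P (d + e) := by
  obtain ⟨f, hf, rfl⟩ := (mem_S P).1 hφ
  obtain ⟨g, hg, rfl⟩ := (mem_S P).1 hψ
  exact (mem_S P).2 ⟨f * g, hf.mul hg, ev_mul P f g⟩

/-- the coordinate functions lie in `S 1` -/
theorem ev_X_mul (j : Fin (n + 1)) (f : MvPolynomial (Fin (n + 1)) K) (z : Z) :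
    ev P (X j * f) z = P z j * ev P f z := by
  simp [ev_apply]

/-- the linear form with coefficients `c` -/
noncomputable def Lf (c : Fin (n + 1) → K) : MvPolynomial (Fin (n + 1)) K := ∑ j, C (c j) * X j

theorem Lf_hom (c : Fin (n + 1) → K) : (Lf c).IsHomogeneous 1 := by
  unfold Lf
  refine IsHomogeneous.sum _ _ _ fun j _ => ?_
  have := (isHomogeneous_C (Fin (n + 1)) (c j)).mul (isHomogeneous_X K j)
  simpa using this

theorem eval_Lf (c x : Fin (n + 1) → K) : eval x (Lf c) = ∑ j, c j * x j := by
  simp [Lf]

/-- the subspaces of `K^Z` describing `J` in degree `d` -/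
noncomputable def T (l : Z → K) : ℕ → Submodule K (Z → K)
  | 0 => ⊥
  | d + 1 => (S P d).map (LinearMap.mulLeft K l)

theorem mem_T_succ {l : Z → K} {d : ℕ} {φ : Z → K} :
    φ ∈ T P l (d + 1) ↔ ∃ ψ ∈ S P d, l * ψ = φ := by
  simp [T, Submodule.mem_map]

theorem eval_smul_of_hom {d : ℕ} {f : MvPolynomial (Fin (n + 1)) K} (hf : f.IsHomogeneous d)
    (t : K) (x : Fin (n + 1) → K) : eval (t • x) f = t ^ d * eval x f := by
  have h1 : eval (t • x) f = ∑ m ∈ f.support, f.coeff m * ∏ i ∈ m.support, (t • x) i ^ m i := by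
    exact MvPolynomial.eval_eq _ _
  have h2 : eval x f = ∑ m ∈ f.support, f.coeff m * ∏ i ∈ m.support, x i ^ m i := by
    exact MvPolynomial.eval_eq _ _
  rw [h1, h2, Finset.mul_sum]
  refine Finset.sum_congr rfl fun m hm => ?_
  have hd : ∑ i ∈ m.support, m i = d := by
    have := hf (mem_support_iff.1 hm)
    rwa [Finsupp.weight_apply, Finsupp.sum] at this |> fun h => by simpa using h
  have : ∏ i ∈ m.support, (t • x) i ^ m i = t ^ d * ∏ i ∈ m.support, x i ^ m i := by
    rw [← hd, ← Finset.prod_pow_eq_pow_sum, ← Finset.prod_mul_distrib]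
    refine Finset.prod_congr rfl fun i _ => ?_
    simp [mul_pow]
  rw [this]
  ring

/-- Every form of degree `d + 1` is a combination of monomials divisible by a variable. -/
theorem hom_succ_induction {d : ℕ} (p : MvPolynomial (Fin (n + 1)) K → Prop)
    (h0 : p 0) (hadd : ∀ f g, p f → p g → p (f + g))
    (hX : ∀ j (g : MvPolynomial (Fin (n + 1)) K), g.IsHomogeneous d → p (X j * g))
    (f : MvPolynomial (Fin (n + 1)) K) (hf : f.IsHomogeneous (d + 1)) : p f := by
  rw [f.as_sum]
  refine Finset.sum_induction _ p hadd h0 fun m hm => ?_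
  have hd : m.degree = d + 1 := by
    have := hf (mem_support_iff.1 hm)
    rwa [Finsupp.degree_eq_weight_one]
  have hm0 : m ≠ 0 := by
    rintro rfl
    simp at hd
  obtain ⟨j, hj⟩ := Finsupp.support_nonempty_iff.2 hm0
  have hj' : m j ≠ 0 := Finsupp.mem_support_iff.1 hj
  have hle : Finsupp.single j 1 ≤ m := by
    rw [Finsupp.single_le_iff]
    omega
  have e : Finsupp.single j 1 + (m - Finsupp.single j 1) = m := add_tsub_cancel_of_le hle
  have e2 : monomial m (coeff m f) = X j * monomial (m - Finsupp.single j 1) (coeff m f) := by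
    rw [X, monomial_mul, one_mul, e]
  rw [e2]
  refine hX j _ (isHomogeneous_monomial _ ?_)
  have : (Finsupp.single j 1 + (m - Finsupp.single j 1)).degree = d + 1 := by rw [e, hd]
  rw [map_add, Finsupp.degree_single] at this
  omega

/-- A linear form vanishing at no point. -/
theorem exists_linear [CharZero K] [Fintype Z] (h : ∀ z, P z ≠ 0) :
    ∃ c : Fin (n + 1) → K, ∀ z, eval (P z) (Lf c) ≠ 0 := by
  classical
  have : Infinite K := Infinite.of_injective (Nat.cast : ℕ → K) Nat.cast_injective
  have hne : ∏ z, Lf (P z) ≠ 0 := by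
    rw [Finset.prod_ne_zero_iff]
    intro z _ h0
    apply h z
    funext j
    have := congrArg (eval (Pi.single j 1)) h0
    rw [eval_Lf] at this
    simpa [Pi.single_apply] using this
  by_contra hcon
  push Not at hcon
  apply hne
  refine MvPolynomial.funext fun x => ?_
  obtain ⟨z, hz⟩ := hcon x
  rw [map_prod, map_zero]
  refine Finset.prod_eq_zero (Finset.mem_univ z) ?_
  rw [eval_Lf] at hz ⊢
  rw [← hz]
  exact Finset.sum_congr rfl fun j _ => mul_comm _ _

theorem T_le_S {l : Fin (n + 1) → K} (i : ℕ) :
    T P (fun z => eval (P z) (Lf l)) (i + 1) ≤ S P (i + 1) := by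
  intro φ hφ
  obtain ⟨ψ, hψ, rfl⟩ := (mem_T_succ P).1 hφ
  have h1 : (fun z => eval (P z) (Lf l)) ∈ S P 1 :=
    (mem_S P).2 ⟨Lf l, Lf_hom l, funext fun z => ev_apply P _ z⟩
  have := mul_mem_S P h1 hψ
  rwa [add_comm 1 i] at this

/-- the ideal of the cone over the points -/
def Icone : Ideal (MvPolynomial (Fin (n + 1)) K) where
  carrier := {f | ∀ z, ∀ t : K, eval (t • P z) f = 0}
  add_mem' := fun ha hb z t => by
    have h1 := ha z t
    have h2 := hb z t
    rw [map_add, h1, h2, add_zero]
  zero_mem' := fun z t => map_zero _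
  smul_mem' := fun c f hf z t => by
    have h1 := hf z t
    rw [smul_eq_mul, map_mul, h1, mul_zero]

theorem mem_Icone (f : MvPolynomial (Fin (n + 1)) K) :
    f ∈ Icone P ↔ ∀ z, ∀ t : K, eval (t • P z) f = 0 := Iff.rfl

theorem mem_Icone_of_hom {d : ℕ} {f : MvPolynomial (Fin (n + 1)) K} (hf : f.IsHomogeneous d)
    (h : ev P f = 0) : f ∈ Icone P := by
  intro z t
  rw [eval_smul_of_hom hf, ← ev_apply P, h]
  simp

/-- homogeneous components of elements of the ideal vanish at the points -/
theorem ev_component_of_mem [CharZero K] {f : MvPolynomial (Fin (n + 1)) K} (hf : f ∈ Icone P)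
    (d : ℕ) : ev P (homogeneousComponent d f) = 0 := by
  have : Infinite K := Infinite.of_injective (Nat.cast : ℕ → K) Nat.cast_injective
  funext z
  have hq : (∑ i ∈ Finset.range (f.totalDegree + 1),
      Polynomial.monomial i (eval (P z) (homogeneousComponent i f)) : Polynomial K) = 0 := by
    refine Polynomial.funext fun t => ?_
    have h1 := hf z t
    rw [← sum_homogeneousComponent f, map_sum] at h1
    rw [Polynomial.eval_finsetSum, Polynomial.eval_zero, ← h1]
    refine Finset.sum_congr rfl fun i _ => ?_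
    rw [Polynomial.eval_monomial, eval_smul_of_hom (homogeneousComponent_isHomogeneous i f)]
    ring
  by_cases hd : d ∈ Finset.range (f.totalDegree + 1)
  · have := congrArg (fun q => Polynomial.coeff q d) hq
    simp only [Polynomial.finsetSum_coeff, Polynomial.coeff_monomial, Polynomial.coeff_zero] at this
    rw [Finset.sum_ite_eq' , if_pos hd] at this
    rw [ev_apply, this]
    rfl
  · rw [Finset.mem_range, not_lt] at hd
    rw [homogeneousComponent_eq_zero d f (by omega)]
    simp

end Basic

section Main

variable {K : Type} [Field K] [CharZero K] {n : ℕ} {Z : Type} (P : Z → Fin (n + 1) → K)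
  (c : Fin (n + 1) → K)

/-- the ideal of the hyperplane section -/
noncomputable def Jc : Ideal (MvPolynomial (Fin (n + 1)) K) := Icone P ⊔ Ideal.span {Lf c}

/-- the values of the linear form -/
noncomputable def lin : Z → K := fun z => eval (P z) (Lf c)

theorem component_Lf_mul (q : MvPolynomial (Fin (n + 1)) K) (d : ℕ) :
    homogeneousComponent (d + 1) (Lf c * q) = Lf c * homogeneousComponent d q := by
  conv_lhs => rw [← sum_homogeneousComponent q, Finset.mul_sum, map_sum]
  have h : ∀ i, homogeneousComponent (d + 1) (Lf c * homogeneousComponent i q) =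
      if i = d then Lf c * homogeneousComponent d q else 0 := by
    intro i
    have hm : (Lf c * homogeneousComponent i q).IsHomogeneous (1 + i) :=
      (Lf_hom c).mul (homogeneousComponent_isHomogeneous i q)
    rw [homogeneousComponent_of_mem ((mem_homogeneousSubmodule _ _).2 hm)]
    by_cases hi : i = d
    · subst hi
      rw [if_pos (by ring), if_pos rfl]
    · rw [if_neg (by omega), if_neg hi]
  simp only [h]
  rw [Finset.sum_ite_eq']
  split_ifs with hd
  · rfl
  · rw [Finset.mem_range, not_lt] at hd
    rw [homogeneousComponent_eq_zero d q (by omega), mul_zero]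

theorem component_zero_Lf_mul (q : MvPolynomial (Fin (n + 1)) K) :
    homogeneousComponent 0 (Lf c * q) = 0 := by
  rw [homogeneousComponent_zero]
  have : coeff 0 (Lf c * q) = 0 := by
    have h1 : coeff 0 (Lf c * q) = constantCoeff (Lf c * q) := rfl
    rw [h1, map_mul]
    have h2 : constantCoeff (Lf c) = 0 := by simp [Lf]
    rw [h2, zero_mul]
  rw [this, C_0]

theorem component_X_mul (j : Fin (n + 1)) (q : MvPolynomial (Fin (n + 1)) K) (d : ℕ) :
    homogeneousComponent (d + 1) (X j * q) = X j * homogeneousComponent d q := by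
  have : (X j : MvPolynomial (Fin (n + 1)) K) = Lf (Pi.single j 1) := by
    rw [Lf, Finset.sum_eq_single j]
    · simp
    · intro i _ hij
      simp [hij]
    · simp
  rw [this, component_Lf_mul]

/-- Membership in `J` is read on the homogeneous components. -/
theorem mem_Jc (f : MvPolynomial (Fin (n + 1)) K) :
    f ∈ Jc P c ↔ ∀ d, ev P (homogeneousComponent d f) ∈ T P (lin P c) d := by
  constructor
  · intro hf d
    obtain ⟨a, ha, b, hb, rfl⟩ := Submodule.mem_sup.1 hf
    obtain ⟨q, rfl⟩ := Ideal.mem_span_singleton'.1 hb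
    rw [map_add, map_add, ev_component_of_mem P ha, zero_add, mul_comm]
    cases d with
    | zero =>
      rw [component_zero_Lf_mul, map_zero]
      exact Submodule.zero_mem _
    | succ d =>
      rw [component_Lf_mul, ev_mul, mem_T_succ]
      refine ⟨ev P (homogeneousComponent d q),
        (mem_S P).2 ⟨_, homogeneousComponent_isHomogeneous d q, rfl⟩, ?_⟩
      funext z
      simp only [Pi.mul_apply, ev_apply]
      rfl
  · intro h
    rw [← sum_homogeneousComponent f]
    refine Ideal.sum_mem _ fun d _ => ?_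
    have hd := h d
    cases d with
    | zero =>
      have h0 : ev P (homogeneousComponent 0 f) = 0 := by
        have : ev P (homogeneousComponent 0 f) ∈ (⊥ : Submodule K (Z → K)) := hd
        simpa using this
      exact Ideal.mem_sup_left (mem_Icone_of_hom P (homogeneousComponent_isHomogeneous 0 f) h0)
    | succ d =>
      obtain ⟨ψ, hψ, hψ2⟩ := (mem_T_succ P).1 hd
      obtain ⟨q, hq, rfl⟩ := (mem_S P).1 hψ
      have hLq : (Lf c * q).IsHomogeneous (d + 1) := by
        have := (Lf_hom c).mul hq
        rwa [add_comm 1 d] at this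
      have h1 : homogeneousComponent (d + 1) f - Lf c * q ∈ Icone P := by
        refine mem_Icone_of_hom P ((homogeneousComponent_isHomogeneous (d + 1) f).sub hLq) ?_
        rw [map_sub, ← hψ2, ev_mul, sub_eq_zero]
        funext z
        simp only [Pi.mul_apply, ev_apply]
        rfl
      have h2 : Lf c * q ∈ Ideal.span {Lf c} := Ideal.mem_span_singleton'.2 ⟨q, mul_comm _ _⟩
      have : homogeneousComponent (d + 1) f = (homogeneousComponent (d + 1) f - Lf c * q) +
          Lf c * q := by ring
      rw [this]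
      exact Ideal.add_mem _ (Ideal.mem_sup_left h1) (Ideal.mem_sup_right h2)

/-- The same for a form. -/
theorem mem_Jc_of_hom {d : ℕ} {f : MvPolynomial (Fin (n + 1)) K} (hf : f.IsHomogeneous d) :
    f ∈ Jc P c ↔ ev P f ∈ T P (lin P c) d := by
  rw [mem_Jc]
  constructor
  · intro h
    have := h d
    rwa [homogeneousComponent_of_mem ((mem_homogeneousSubmodule _ _).2 hf), if_pos rfl] at this
  · intro h e
    rw [homogeneousComponent_of_mem ((mem_homogeneousSubmodule _ _).2 hf)]
    split_ifs with he
    · rw [he]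
      exact h
    · rw [map_zero]
      exact Submodule.zero_mem _

variable [Fintype Z] (w : Z → K)

/-- functions `φ` with `P j * φ ∈ S d` for all `j` are orthogonal to forms of degree `t + 1 - d`. -/
theorem orth_of_mul {t : ℕ} (hD : Dual P w t) {d e : ℕ} (hde : d + e = t) {φ : Z → K}
    (hφ : ∀ j, (fun z => P z j * φ z) ∈ S P d) {ψ : Z → K} (hψ : ψ ∈ S P (e + 1)) :
    ∑ z, w z * (φ z * ψ z) = 0 := by
  obtain ⟨f, hf, rfl⟩ := (mem_S P).1 hψ
  refine hom_succ_induction (d := e) (fun f => ∑ z, w z * (φ z * ev P f z) = 0) ?_ ?_ ?_ f hf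
  · simp
  · intro f g hf hg
    have : ∀ z, w z * (φ z * ev P (f + g) z) =
        w z * (φ z * ev P f z) + w z * (φ z * ev P g z) := by
      intro z
      rw [map_add, Pi.add_apply]
      ring
    simp only [this]
    rw [Finset.sum_add_distrib, hf, hg, add_zero]
  · intro j g hg
    have h1 := mul_mem_S P (hφ j) ((mem_S P).2 ⟨g, hg, rfl⟩)
    rw [hde] at h1
    have h2 := hD.orth _ h1
    rw [← h2]
    refine Finset.sum_congr rfl fun z _ => ?_
    rw [ev_X_mul, Pi.mul_apply]
    ring

/-- The socle of the hyperplane section is one-dimensional. -/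
theorem gorenstein (hD : Dual P w 5) (hc : ∀ z, eval (P z) (Lf c) ≠ 0) [Nonempty Z] :
    ∃ g : MvPolynomial (Fin (n + 1)) K, g ∉ Jc P c ∧ (∀ j, X j * g ∈ Jc P c) ∧
      ∀ f : MvPolynomial (Fin (n + 1)) K, (∀ j, X j * f ∈ Jc P c) →
        ∃ a : K, f - C a * g ∈ Jc P c := by
  classical
  obtain ⟨z0⟩ := ‹Nonempty Z›
  have hl : ∀ z, lin P c z ≠ 0 := hc
  -- the function with total weight one
  set φ0 : Z → K := Pi.single z0 (w z0)⁻¹ with hφ0
  have hsum0 : ∑ z, w z * φ0 z = 1 := by
    rw [Finset.sum_eq_single z0]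
    · rw [hφ0, Pi.single_eq_same, mul_inv_cancel₀ (hD.cne z0)]
    · intro z _ hz
      rw [hφ0, Pi.single_eq_of_ne hz, mul_zero]
    · simp
  have hS6 : S P 6 = ⊤ := hD.top 6 (by norm_num)
  have hmem : lin P c * φ0 ∈ S P 6 := by
    rw [hS6]
    trivial
  obtain ⟨s, hs, hs2⟩ := (mem_S P).1 hmem
  refine ⟨s, ?_, ?_, ?_⟩
  · rw [mem_Jc_of_hom P c hs, hs2, mem_T_succ]
    rintro ⟨ψ, hψ, hψ2⟩
    have : ψ = φ0 := by
      funext z
      have := congrFun hψ2 z
      simp only [Pi.mul_apply] at this
      exact mul_left_cancel₀ (hl z) this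
    have h0 := hD.orth ψ hψ
    rw [this, hsum0] at h0
    exact one_ne_zero h0
  · intro j
    have hXs : (X j * s).IsHomogeneous (6 + 1) := by
      have := (isHomogeneous_X K j).mul hs
      simpa using this
    rw [mem_Jc_of_hom P c hXs, mem_T_succ]
    refine ⟨fun z => (lin P c z)⁻¹ * ev P (X j * s) z, ?_, ?_⟩
    · rw [hS6]
      trivial
    · funext z
      simp only [Pi.mul_apply]
      rw [← mul_assoc, mul_inv_cancel₀ (hl z), one_mul]
  · intro f hf
    -- the quotients of the components by the linear form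
    set φ : ℕ → Z → K := fun d z => (lin P c z)⁻¹ * ev P (homogeneousComponent d f) z with hφ
    have hφl : ∀ d, lin P c * φ d = ev P (homogeneousComponent d f) := by
      intro d
      funext z
      simp only [Pi.mul_apply, hφ]
      rw [← mul_assoc, mul_inv_cancel₀ (hl z), one_mul]
    have hmul : ∀ d j, (fun z => P z j * φ d z) ∈ S P d := by
      intro d j
      have h1 := (mem_Jc P c (X j * f)).1 (hf j) (d + 1)
      rw [component_X_mul] at h1
      obtain ⟨ψ, hψ, hψ2⟩ := (mem_T_succ P).1 h1
      have : (fun z => P z j * φ d z) = ψ := by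
        funext z
        have h2 := congrFun hψ2 z
        rw [ev_X_mul] at h2
        simp only [Pi.mul_apply] at h2
        apply mul_left_cancel₀ (hl z)
        rw [h2]
        simp only [hφ]
        rw [mul_left_comm, ← mul_assoc (lin P c z), mul_inv_cancel₀ (hl z), one_mul]
      rw [this]
      exact hψ
    refine ⟨∑ z, w z * φ 6 z, (mem_Jc P c _).2 fun d => ?_⟩
    rw [map_sub, homogeneousComponent_C_mul,
      homogeneousComponent_of_mem ((mem_homogeneousSubmodule _ _).2 hs)]
    by_cases hd6 : d = 6
    · subst hd6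
      rw [if_pos rfl, mem_T_succ]
      refine ⟨φ 6 - (∑ z, w z * φ 6 z) • φ0, ?_, ?_⟩
      · refine hD.perp 5 le_rfl _ fun ψ hψ => ?_
        obtain ⟨q, hq, rfl⟩ := (mem_S P).1 hψ
        have hq0 : q.totalDegree = 0 := by
          have := hq.totalDegree_le
          omega
        obtain ⟨b, rfl⟩ : ∃ b, q = C b := ⟨_, totalDegree_eq_zero_iff_eq_C.1 hq0⟩
        have : ∀ z, w z * ((φ 6 - (∑ z, w z * φ 6 z) • φ0) z * ev P (C b) z) =
            b * (w z * φ 6 z) - b * ((∑ z, w z * φ 6 z) * (w z * φ0 z)) := by
          intro z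
          rw [ev_apply, eval_C]
          simp only [Pi.sub_apply, Pi.smul_apply, smul_eq_mul]
          ring
        simp only [this]
        rw [Finset.sum_sub_distrib, ← Finset.mul_sum, ← Finset.mul_sum, ← Finset.mul_sum, hsum0,
          mul_one, sub_self]
      · rw [mul_sub, hφl, mul_smul_comm, map_sub, ← hs2, ← smul_eq_C_mul, map_smul]
    · rw [if_neg hd6, mul_zero, sub_zero, ← hφl]
      rcases Nat.lt_or_ge d 7 with hd | hd
      · have horth : ∀ ψ ∈ S P (5 - d + 1), ∑ z, w z * (φ d z * ψ z) = 0 := fun ψ hψ =>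
          orth_of_mul P w hD (show d + (5 - d) = 5 by omega) (hmul d) hψ
        cases d with
        | zero =>
          have h0 : φ 0 = 0 := by
            funext z
            have h1 := horth (Pi.single z 1) (by
              have : S P (5 - 0 + 1) = ⊤ := hS6
              rw [this]
              trivial)
            rw [Finset.sum_eq_single z] at h1
            · rw [Pi.single_eq_same, mul_one] at h1
              exact (mul_eq_zero.1 h1).resolve_left (hD.cne z)
            · intro y _ hy
              rw [Pi.single_eq_of_ne hy, mul_zero, mul_zero]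
            · simp
          rw [h0, mul_zero]
          exact Submodule.zero_mem _
        | succ d =>
          rw [mem_T_succ]
          refine ⟨φ (d + 1), ?_, rfl⟩
          refine hD.perp d (by omega) _ fun ψ hψ => horth ψ ?_
          have : 5 - (d + 1) + 1 = 5 - d := by omega
          rw [this]
          exact hψ
      · obtain ⟨e, rfl⟩ : ∃ e, d = e + 1 := ⟨d - 1, by omega⟩
        rw [mem_T_succ]
        refine ⟨φ (e + 1), ?_, rfl⟩
        rw [hD.top e (by omega)]
        trivial

/-- The values of the Hilbert function. -/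
theorem hilbert (hc : ∀ z, eval (P z) (Lf c) ≠ 0) (i : ℕ)
    (H M : Submodule K (MvPolynomial (Fin (n + 1)) K))
    (hH : ∀ f : MvPolynomial (Fin (n + 1)) K, f ∈ H ↔ f.IsHomogeneous (i + 1))
    (hM : ∀ f : MvPolynomial (Fin (n + 1)) K, f ∈ M ↔ (f.IsHomogeneous (i + 1) ∧ f ∈ Jc P c)) :
    Module.finrank K H - Module.finrank K M =
      Module.finrank K (S P (i + 1)) - Module.finrank K (S P i) := by
  have hl : ∀ z, lin P c z ≠ 0 := hc
  have hHe : H = homogeneousSubmodule (Fin (n + 1)) K (i + 1) := by
    ext f
    rw [hH, mem_homogeneousSubmodule]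
  have hfd : Module.Finite K H := by
    rw [hHe, Module.Finite.iff_fg]
    exact homogeneousSubmodule_fg (Fin (n + 1)) K (i + 1)
  have hMH : M ≤ H := fun f hf => (hH f).2 ((hM f).1 hf).1
  -- the evaluation on `H`
  set r : H →ₗ[K] (Z → K) := (ev P).comp H.subtype with hr
  have hrange : LinearMap.range r = S P (i + 1) := by
    rw [hr, LinearMap.range_comp, Submodule.range_subtype, hHe]
    rfl
  have hMr : M.comap H.subtype = (T P (lin P c) (i + 1)).comap r := by
    ext f
    rw [Submodule.mem_comap, Submodule.mem_comap]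
    have hf := (hH f.1).1 f.2
    constructor
    · intro h
      have h1 := ((hM _).1 h).2
      rwa [Submodule.subtype_apply, mem_Jc_of_hom P c hf] at h1
    · intro h
      refine (hM _).2 ⟨hf, ?_⟩
      rw [Submodule.subtype_apply, mem_Jc_of_hom P c hf]
      exact h
  have hMfin : Module.finrank K M = Module.finrank K (M.comap H.subtype) :=
    (LinearEquiv.finrank_eq (Submodule.comapSubtypeEquivOfLe hMH)).symm
  have hTle : T P (lin P c) (i + 1) ≤ LinearMap.range r := by
    rw [hrange]
    exact T_le_S P i
  have hT : Module.finrank K (T P (lin P c) (i + 1)) = Module.finrank K (S P i) := by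
    have hinj : Function.Injective (LinearMap.mulLeft K (lin P c)) := by
      intro φ ψ h
      funext z
      exact mul_left_cancel₀ (hl z) (congrFun h z)
    exact (Submodule.equivMapOfInjective _ hinj (S P i)).finrank_eq.symm
  have h1 := LinearMap.finrank_range_add_finrank_ker r
  set N := (T P (lin P c) (i + 1)).comap r with hN
  have h2 := LinearMap.finrank_range_add_finrank_ker (V := ↥N) (r.domRestrict N)
  have hker : LinearMap.ker r ≤ N := by
    intro x hx
    rw [hN, Submodule.mem_comap, LinearMap.mem_ker.1 hx]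
    exact Submodule.zero_mem _
  have h3 : Module.finrank K (LinearMap.ker (r.domRestrict N)) =
      Module.finrank K (LinearMap.ker r) := by
    rw [LinearMap.ker_domRestrict]
    exact (Submodule.comapSubtypeEquivOfLe hker).finrank_eq
  have h4 : LinearMap.range (r.domRestrict N) = T P (lin P c) (i + 1) := by
    rw [LinearMap.range_domRestrict, hN, Submodule.map_comap_eq, inf_eq_right]
    exact hTle
  rw [h3, h4, hT] at h2
  rw [hrange] at h1
  rw [hMfin, hMr]
  omega

end Main

/-- Task T2. -/
theorem t2 : Pool.Agent.W464.WLP.T2 := by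
  classical
  intro K _ _ _ n Z _ P w hinj hP hD h1 h2 h3 h4 hst
  obtain ⟨c, hc⟩ := exists_linear P hP
  have hne : Nonempty Z := by
    by_contra hcon
    rw [not_nonempty_iff] at hcon
    have : Module.finrank K (S P 1) ≤ Module.finrank K (Z → K) := Submodule.finrank_le _
    rw [Module.finrank_fintype_fun_eq_card, Fintype.card_eq_zero] at this
    omega
  set X : Finset (Fin (n + 1) → K) := Finset.univ.image P with hX
  have hall : ∀ i, i ∈ X ↔ ∃ z, P z = i := by
    intro i
    simp [hX]
  have hres := hst K n X c (Icone P) (Jc P c)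
    (fun i => homogeneousSubmodule (Fin (n + 1)) K i)
    (fun i => homogeneousSubmodule (Fin (n + 1)) K i ⊓ (Jc P c).restrictScalars K)
    (fun i => Module.finrank K (homogeneousSubmodule (Fin (n + 1)) K i) -
      Module.finrank K ↥(homogeneousSubmodule (Fin (n + 1)) K i ⊓ (Jc P c).restrictScalars K))
    (by
      obtain ⟨z⟩ := hne
      exact ⟨P z, (hall _).2 ⟨z, rfl⟩⟩)
    (by
      intro p hp
      obtain ⟨z, rfl⟩ := (hall _).1 hp
      exact hP z)
    (by
      intro p hp
      obtain ⟨z, rfl⟩ := (hall _).1 hp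
      have := hc z
      rwa [eval_Lf] at this)
    (by
      intro f
      rw [mem_Icone]
      constructor
      · intro h p hp t
        obtain ⟨z, rfl⟩ := (hall _).1 hp
        exact h z t
      · intro h z t
        exact h _ ((hall _).2 ⟨z, rfl⟩) t)
    rfl (gorenstein P c w hD hc) (fun i f => mem_homogeneousSubmodule _ _)
    (by
      intro i f
      rw [Submodule.mem_inf, mem_homogeneousSubmodule, Submodule.restrictScalars_mem])
    (fun i => rfl)
  obtain ⟨m, hm1, hm2⟩ := hres
  have key : ∀ i, Module.finrank K (homogeneousSubmodule (Fin (n + 1)) K (i + 1)) -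
      Module.finrank K ↥(homogeneousSubmodule (Fin (n + 1)) K (i + 1) ⊓
        (Jc P c).restrictScalars K) =
      Module.finrank K (S P (i + 1)) - Module.finrank K (S P i) := by
    intro i
    refine hilbert P c hc i _ _ (fun f => mem_homogeneousSubmodule _ _) fun f => ?_
    rw [Submodule.mem_inf, mem_homogeneousSubmodule, Submodule.restrictScalars_mem]
  have k1 := key 1
  have k2 := key 2
  have k3 := key 3
  have e2 : Module.finrank K (S P (1 + 1)) = 130 := h2
  have e3 : Module.finrank K (S P (2 + 1)) = 220 := h3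
  have e4 : Module.finrank K (S P (3 + 1)) = 311 := h4
  rw [h1, e2] at k1
  rw [h2, e3] at k2
  rw [h3, e4] at k3
  rcases le_total 3 m with h | h
  · have := hm1 (1 + 1) (2 + 1) (by norm_num) h
    simp only [k1, k2] at this
    omega
  · have := hm2 (2 + 1) (3 + 1) h (by norm_num)
    simp only [k2, k3] at this
    omega

end Pool.Agent.W749.WLP
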